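import Mathlib

/-!
# Quadratic maps with values in endomorphisms: from the strict identities of low degree to the
identities of quadratic Jordan algebras
-/

set_option autoImplicit false

namespace Pool.Agent.HuaT31

open QuadraticMap

section

variable {R M : Type*} [CommRing R] [AddCommGroup M] [Module R M]
  (U : QuadraticMap R M (Module.End R M))

/-- the triple product `{a, b, c} = U_{a,c} b` -/
def tr (a b c : M) : M := polar (⇑U) a c b

lemma tr_comm (a b c : M) : tr U a b c = tr U c b a := by
  rw [tr, tr, QuadraticMap.polar_comm]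

lemma tr_add1 (a a' b c : M) : tr U (a + a') b c = tr U a b c + tr U a' b c := by
  rw [tr, QuadraticMap.polar_add_left, LinearMap.add_apply]
  rfl

lemma tr_add2 (a b b' c : M) : tr U a (b + b') c = tr U a b c + tr U a b' c := by
  rw [tr, map_add]
  rfl

lemma tr_add3 (a b c c' : M) : tr U a b (c + c') = tr U a b c + tr U a b c' := by
  rw [tr, QuadraticMap.polar_add_right, LinearMap.add_apply]
  rfl

lemma tr_smul1 (r : R) (a b c : M) : tr U (r • a) b c = r • tr U a b c := by
  rw [tr, QuadraticMap.polar_smul_left, LinearMap.smul_apply]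
  rfl

lemma tr_smul2 (r : R) (a b c : M) : tr U a (r • b) c = r • tr U a b c := by
  rw [tr, map_smul]
  rfl

lemma tr_smul3 (r : R) (a b c : M) : tr U a b (r • c) = r • tr U a b c := by
  rw [tr, QuadraticMap.polar_smul_right, LinearMap.smul_apply]
  rfl

lemma tr_zero1 (b c : M) : tr U 0 b c = 0 := by
  rw [tr, QuadraticMap.polar_zero_left, LinearMap.zero_apply]

lemma tr_zero2 (a c : M) : tr U a 0 c = 0 := by
  rw [tr, map_zero]

lemma tr_zero3 (a b : M) : tr U a b 0 = 0 := by
  rw [tr, QuadraticMap.polar_zero_right, LinearMap.zero_apply]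

lemma U_add (a c x : M) : U (a + c) x = U a x + U c x + tr U a x c := by
  rw [QuadraticMap.map_add (⇑U), LinearMap.add_apply, LinearMap.add_apply]
  rfl

lemma U_smul (r : R) (a x : M) : U (r • a) x = (r * r) • U a x := by
  rw [QuadraticMap.map_smul, LinearMap.smul_apply]

lemma U_zero (x : M) : U 0 x = 0 := by
  rw [map_zero, LinearMap.zero_apply]

/-- the ingredients: identities of degree at most two in each letter -/
structure Ing : Prop where
  I : ∀ a b c x, tr U a c (tr U b c x) = tr U a (U c b) x + tr U a (U c x) b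
  J4 : ∀ a b c x, tr U a b (tr U a c x) = tr U (U a b) c x + U a (tr U b x c)
  JP2 : ∀ u b v, tr U (U u b) b v = tr U u (U b u) v
  E : ∀ a c d x, tr U a c (U d x) + U d (tr U c a x) = tr U (tr U a c d) x d

variable {U} (h : Ing U)

include h

/-- the `(2, 1)` part of `V_{a,b} U_a = U_a V_{b,a}` -/
lemma QJ2lin (u v b d : M) : tr U v b (U u d) + tr U u b (tr U u d v) =
    U u (tr U b v d) + tr U u (tr U b u d) v := by
  have h1 := h.J4 u b d v
  have h2 := h.JP2 u (b + d) v
  have h3 := h.JP2 u b v
  have h4 := h.JP2 u d v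
  rw [map_add, tr_add1, tr_add2, tr_add2, h3, h4, U_add, tr_add2, tr_add2] at h2
  have h5 : tr U (U u b) d v + tr U (U u d) b v = tr U u (tr U b u d) v := by
    have h6 : tr U (U u b) d v + tr U (U u d) b v =
        (tr U u (U b u) v + tr U (U u b) d v + (tr U (U u d) b v + tr U u (U d u) v)) -
        tr U u (U b u) v - tr U u (U d u) v := by abel
    rw [h6, h2]
    abel
  rw [h1, ← h5, tr_comm U v b]
  abel

/-- `V_{a,b} U_a = U_a V_{b,a}` for a sum -/
lemma QJ2_add (u v : M) (hu : ∀ b d, tr U u b (U u d) = U u (tr U b u d))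
    (hv : ∀ b d, tr U v b (U v d) = U v (tr U b v d)) (b d : M) :
    tr U (u + v) b (U (u + v) d) = U (u + v) (tr U b (u + v) d) := by
  have h1 := QJ2lin h u v b d
  have h2 := QJ2lin h v u b d
  rw [U_add, U_add, tr_add2, tr_add2, tr_add1, tr_add3, tr_add3, tr_add3, tr_add3, hu b d, hv b d,
    map_add, map_add]
  rw [tr_comm U v d u, tr_comm U v (tr U b v d) u] at h2
  have h3 : U u (tr U b u d) + tr U u b (U v d) + tr U u b (tr U u d v) +
      (tr U v b (U u d) + U v (tr U b v d) + tr U v b (tr U u d v)) =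
      U u (tr U b u d) + U v (tr U b v d) + (tr U v b (U u d) + tr U u b (tr U u d v)) +
      (tr U u b (U v d) + tr U v b (tr U u d v)) := by abel
  rw [h3, h1, h2]
  abel

/-- the polarised form of `E` -/
lemma E_pol (a c d e x : M) : tr U a c (tr U d x e) + tr U d (tr U c a x) e =
    tr U (tr U a c d) x e + tr U (tr U a c e) x d := by
  have h1 := h.E a c (d + e) x
  have h2 := h.E a c d x
  have h3 := h.E a c e x
  rw [U_add, U_add] at h1
  simp only [tr_add3, tr_add1] at h1
  have h4 : tr U a c (tr U d x e) + tr U d (tr U c a x) e =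
      (tr U a c (U d x) + tr U a c (U e x) + tr U a c (tr U d x e) +
        (U d (tr U c a x) + U e (tr U c a x) + tr U d (tr U c a x) e)) -
      (tr U a c (U d x) + U d (tr U c a x)) - (tr U a c (U e x) + U e (tr U c a x)) := by abel
  rw [h4, h1, h2, h3]
  abel

/-- the `(3, 1)` part of the fundamental formula -/
lemma QJ3_31 (a : M) (ha : ∀ b d, tr U a b (U a d) = U a (tr U b a d)) (b c x : M) :
    tr U (U a b) x (tr U a b c) = tr U a (U b (U a x)) c + U a (U b (tr U a x c)) := by
  have h1 := E_pol h c b (U a b) a x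
  have h2 : tr U (U a b) x a = tr U a b (U a x) := by
    rw [tr_comm, ha, ha, tr_comm U x a b]
  have h3 : tr U (U a b) (tr U b c x) a = U a (tr U b a (tr U b c x)) := by
    rw [tr_comm, ha, tr_comm U (tr U b c x) a b]
  have h4 := h.I c a b (U a x)
  have h5 := h.J4 b a c x
  have h6 : tr U c b (U a b) = tr U c (U b a) a := by
    rw [tr_comm U c b, h.JP2 a b c, tr_comm]
  have h7 := h.E c (U b a) a x
  rw [h2, h3, h4, h5, h6, ← h7, map_add] at h1
  rw [tr_comm U (U a b) x, tr_comm U a b c, tr_comm U a (U b (U a x)) c]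
  have h8 : tr U (tr U c b a) x (U a b) = (tr U c (U b a) (U a x) +
      U a (tr U (U b a) c x) + tr U (tr U c b a) x (U a b)) -
      (tr U c (U b a) (U a x) + U a (tr U (U b a) c x)) := by abel
  rw [h8, ← h1]
  abel

/-- the fundamental formula for a sum -/
lemma QJ3_add (hQ : ∀ a b d, tr U a b (U a d) = U a (tr U b a d))
    (h22 : ∀ a b c x, U (tr U a b c) x + tr U (U a b) x (U c b) =
      U a (U b (U c x)) + U c (U b (U a x)) + tr U a (U b (tr U a x c)) c)
    (a c : M) (ha : ∀ b x, U (U a b) x = U a (U b (U a x)))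
    (hc : ∀ b x, U (U c b) x = U c (U b (U c x))) (b x : M) :
    U (U (a + c) b) x = U (a + c) (U b (U (a + c) x)) := by
  have h1 := QJ3_31 h a (hQ a) b c x
  have h2 := QJ3_31 h c (hQ c) b a x
  have h3 := h22 a b c x
  rw [tr_comm U c b a, tr_comm U c x a, tr_comm U c (U b (U c x)) a] at h2
  rw [U_add U a c b, U_add, U_add, tr_add1, ha, hc, h1, h2, U_add U a c x, U_add]
  simp only [map_add, tr_add2]
  have h4 : U a (U b (U a x)) + U c (U b (U c x)) + tr U (U a b) x (U c b) +
      U (tr U a b c) x +
      (tr U a (U b (U a x)) c + U a (U b (tr U a x c)) +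
        (tr U a (U b (U c x)) c + U c (U b (tr U a x c)))) =
      (U (tr U a b c) x + tr U (U a b) x (U c b)) + U a (U b (U a x)) + U c (U b (U c x)) +
      (tr U a (U b (U a x)) c + U a (U b (tr U a x c)) +
        (tr U a (U b (U c x)) c + U c (U b (tr U a x c)))) := by abel
  rw [h4, h3]
  abel

omit h in
/-- the `(2, 2)` part of the fundamental formula from the formula itself -/
lemma QJ3_22 (h : Ing U) (hQ : ∀ a b d, tr U a b (U a d) = U a (tr U b a d))
    (hF : ∀ a b x, U (U a b) x = U a (U b (U a x))) (a b c x : M) :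
    U (tr U a b c) x + tr U (U a b) x (U c b) =
      U a (U b (U c x)) + U c (U b (U a x)) + tr U a (U b (tr U a x c)) c := by
  have h1 := QJ3_31 h a (hQ a) b c x
  have h2 := QJ3_31 h c (hQ c) b a x
  rw [tr_comm U c b a, tr_comm U c x a, tr_comm U c (U b (U c x)) a] at h2
  have h3 := hF (a + c) b x
  rw [U_add U a c b, U_add, U_add, tr_add1, hF, hF, h1, h2, U_add U a c x, U_add] at h3
  simp only [map_add, tr_add2] at h3
  have h4 : U (tr U a b c) x + tr U (U a b) x (U c b) =
      (U a (U b (U a x)) + U c (U b (U c x)) + tr U (U a b) x (U c b) +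
      U (tr U a b c) x +
      (tr U a (U b (U a x)) c + U a (U b (tr U a x c)) +
        (tr U a (U b (U c x)) c + U c (U b (tr U a x c))))) -
      (U a (U b (U a x)) + U c (U b (U c x)) +
      (tr U a (U b (U a x)) c + U a (U b (tr U a x c)) +
        (tr U a (U b (U c x)) c + U c (U b (tr U a x c))))) := by abel
  rw [h4, h3]
  abel

end

end Pool.Agent.HuaT31
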