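import Mathlib
import Pool.Agent.HuaT31.Abs

/-!
# Transfer of identities of degree at most two in each letter to scalar extensions
-/

set_option autoImplicit false

open scoped TensorProduct

namespace Pool.Agent.HuaT31

open QuadraticMap

section

variable {A : Type*} [AddCommGroup A] {Ω : Type*} [CommRing Ω]

/-- induction on a scalar extension -/
lemma ten_ind {P : Ω ⊗[ℤ] A → Prop} (h1 : ∀ a : A, P ((1 : Ω) ⊗ₜ[ℤ] a))
    (hs : ∀ (ω : Ω) x, P x → P (ω • x)) (ha : ∀ x y, P x → P y → P (x + y)) (x : Ω ⊗[ℤ] A) :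
    P x := by
  induction x using TensorProduct.induction_on with
  | zero =>
    have h := hs 0 _ (h1 0)
    rwa [zero_smul] at h
  | tmul ω a =>
    have h := hs ω _ (h1 a)
    rwa [TensorProduct.smul_tmul', smul_eq_mul, mul_one] at h
  | add x y hx hy => exact ha x y hx hy

variable {N : Type*} [AddCommGroup N] [Module Ω N]

/-- a quadratic map which vanishes on the elements `1 ⊗ a` vanishes -/
lemma quad_zero (q : QuadraticMap Ω (Ω ⊗[ℤ] A) N) (h : ∀ a : A, q ((1 : Ω) ⊗ₜ[ℤ] a) = 0)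
    (x : Ω ⊗[ℤ] A) : q x = 0 := by
  have hp : ∀ x y : Ω ⊗[ℤ] A, polar (⇑q) x y = 0 := by
    intro x y
    refine ten_ind (P := fun x => polar (⇑q) x y = 0) ?_ ?_ ?_ x
    · intro a
      refine ten_ind (P := fun y => polar (⇑q) ((1 : Ω) ⊗ₜ[ℤ] a) y = 0) ?_ ?_ ?_ y
      · intro b
        rw [QuadraticMap.polar, ← TensorProduct.tmul_add, h, h, h, sub_zero, sub_zero]
      · intro ω z hz
        rw [QuadraticMap.polar_smul_right, hz, smul_zero]
      · intro z w hz hw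
        rw [QuadraticMap.polar_add_right, hz, hw, add_zero]
    · intro ω z hz
      rw [QuadraticMap.polar_smul_left, hz, smul_zero]
    · intro z w hz hw
      rw [QuadraticMap.polar_add_left, hz, hw, add_zero]
  refine ten_ind (P := fun x => q x = 0) h ?_ ?_ x
  · intro ω z hz
    rw [QuadraticMap.map_smul, hz, smul_zero]
  · intro z w hz hw
    rw [QuadraticMap.map_add (⇑q), hz, hw, hp, add_zero, add_zero]

lemma quad_eq (q q' : QuadraticMap Ω (Ω ⊗[ℤ] A) N)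
    (h : ∀ a : A, q ((1 : Ω) ⊗ₜ[ℤ] a) = q' ((1 : Ω) ⊗ₜ[ℤ] a)) (x : Ω ⊗[ℤ] A) : q x = q' x := by
  have h1 := quad_zero (q - q') (by
    intro a
    rw [_root_.sub_apply, h, sub_self]) x
  rw [_root_.sub_apply] at h1
  exact sub_eq_zero.mp h1

end

section

variable {R M : Type*} [CommRing R] [AddCommGroup M] [Module R M]
  (U : QuadraticMap R M (Module.End R M))

/-- the triple product as a trilinear map -/
noncomputable def trL : M →ₗ[R] M →ₗ[R] M →ₗ[R] M :=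
  LinearMap.mk₂ R (fun a b => (
    { toFun := fun c => tr U a b c
      map_add' := fun c c' => tr_add3 U a b c c'
      map_smul' := fun r c => tr_smul3 U r a b c } : M →ₗ[R] M))
    (fun a a' b => LinearMap.ext fun c => tr_add1 U a a' b c)
    (fun r a b => LinearMap.ext fun c => tr_smul1 U r a b c)
    (fun a b b' => LinearMap.ext fun c => tr_add2 U a b b' c)
    (fun r a b => LinearMap.ext fun c => tr_smul2 U r a b c)

lemma trL_apply (a b c : M) : trL U a b c = tr U a b c := rfl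

/-- the quadratic map `c ↦ U_c b` -/
noncomputable def ev (b : M) : QuadraticMap R M M :=
  (LinearMap.applyₗ b : Module.End R M →ₗ[R] M).compQuadraticMap U

lemma ev_apply (b c : M) : ev U b c = U c b := rfl

end

section

variable {A : Type*} [AddCommGroup A] {Ω : Type*} [CommRing Ω]
  (V : QuadraticMap Ω (Ω ⊗[ℤ] A) (Module.End Ω (Ω ⊗[ℤ] A)))

lemma I_step (a b x : Ω ⊗[ℤ] A)
    (h : ∀ c₀ : A, tr V a ((1 : Ω) ⊗ₜ[ℤ] c₀) (tr V b ((1 : Ω) ⊗ₜ[ℤ] c₀) x) =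
      tr V a (V ((1 : Ω) ⊗ₜ[ℤ] c₀) b) x + tr V a (V ((1 : Ω) ⊗ₜ[ℤ] c₀) x) b)
    (c : Ω ⊗[ℤ] A) :
    tr V a c (tr V b c x) = tr V a (V c b) x + tr V a (V c x) b :=
  quad_eq
    (LinearMap.BilinMap.toQuadraticMap ((trL V a).compl₂ ((trL V b).flip x)))
    (((trL V a).flip x).compQuadraticMap (ev V b) +
      ((trL V a).flip b).compQuadraticMap (ev V x)) h c

lemma J4_step (b c x : Ω ⊗[ℤ] A)
    (h : ∀ a₀ : A, tr V ((1 : Ω) ⊗ₜ[ℤ] a₀) b (tr V ((1 : Ω) ⊗ₜ[ℤ] a₀) c x) =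
      tr V (V ((1 : Ω) ⊗ₜ[ℤ] a₀) b) c x + V ((1 : Ω) ⊗ₜ[ℤ] a₀) (tr V b x c))
    (a : Ω ⊗[ℤ] A) :
    tr V a b (tr V a c x) = tr V (V a b) c x + V a (tr V b x c) :=
  quad_eq
    (LinearMap.BilinMap.toQuadraticMap
      (((trL V).flip b).compl₂ (((trL V).flip c).flip x)))
    ((((trL V).flip c).flip x).compQuadraticMap (ev V b) + ev V (tr V b x c)) h a

lemma JP2_step_u (b v : Ω ⊗[ℤ] A)
    (h : ∀ u₀ : A, tr V v b (V ((1 : Ω) ⊗ₜ[ℤ] u₀) b) =
      tr V v (V b ((1 : Ω) ⊗ₜ[ℤ] u₀)) ((1 : Ω) ⊗ₜ[ℤ] u₀))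
    (u : Ω ⊗[ℤ] A) :
    tr V v b (V u b) = tr V v (V b u) u :=
  quad_eq
    ((trL V v b).compQuadraticMap (ev V b))
    (LinearMap.BilinMap.toQuadraticMap (((trL V v).flip).compl₂ (V b))) h u

lemma JP2_step_b (u v : Ω ⊗[ℤ] A)
    (h : ∀ b₀ : A, tr V v ((1 : Ω) ⊗ₜ[ℤ] b₀) (V u ((1 : Ω) ⊗ₜ[ℤ] b₀)) =
      tr V v (V ((1 : Ω) ⊗ₜ[ℤ] b₀) u) u)
    (b : Ω ⊗[ℤ] A) :
    tr V v b (V u b) = tr V v (V b u) u :=
  quad_eq
    (LinearMap.BilinMap.toQuadraticMap ((trL V v).compl₂ (V u)))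
    (((trL V v).flip u).compQuadraticMap (ev V u)) h b

lemma E_step (a c x : Ω ⊗[ℤ] A)
    (h : ∀ d₀ : A, tr V a c (V ((1 : Ω) ⊗ₜ[ℤ] d₀) x) + V ((1 : Ω) ⊗ₜ[ℤ] d₀) (tr V c a x) =
      tr V (tr V a c ((1 : Ω) ⊗ₜ[ℤ] d₀)) x ((1 : Ω) ⊗ₜ[ℤ] d₀))
    (d : Ω ⊗[ℤ] A) :
    tr V a c (V d x) + V d (tr V c a x) = tr V (tr V a c d) x d :=
  quad_eq
    ((trL V a c).compQuadraticMap (ev V x) + ev V (tr V c a x))
    (LinearMap.BilinMap.toQuadraticMap (((trL V).flip x).comp (trL V a c))) h d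

/-- the `(2, 2)` part -/
def R22 (a b c x : Ω ⊗[ℤ] A) : Prop :=
  V (tr V a b c) x + tr V (V a b) x (V c b) =
    V a (V b (V c x)) + V c (V b (V a x)) + tr V c (V b (tr V a x c)) a

lemma R22_symm {a b c x : Ω ⊗[ℤ] A} (h : R22 V a b c x) : R22 V c b a x := by
  unfold R22 at h ⊢
  rw [tr_comm V c b a, tr_comm V (V c b), tr_comm V a (V b (tr V c x a)), tr_comm V c x a, h]
  abel

lemma R22_step_b (a c x : Ω ⊗[ℤ] A) (h : ∀ b₀ : A, R22 V a ((1 : Ω) ⊗ₜ[ℤ] b₀) c x)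
    (b : Ω ⊗[ℤ] A) : R22 V a b c x :=
  quad_eq
    ((ev V x).comp ((trL V a).flip c) +
      LinearMap.BilinMap.toQuadraticMap ((((trL V).flip x).comp (V a)).compl₂ (V c)))
    ((V a).compQuadraticMap (ev V (V c x)) + (V c).compQuadraticMap (ev V (V a x)) +
      ((trL V c).flip a).compQuadraticMap (ev V (tr V a x c))) h b

lemma R22_step_a (b c x : Ω ⊗[ℤ] A) (h : ∀ a₀ : A, R22 V ((1 : Ω) ⊗ₜ[ℤ] a₀) b c x)
    (a : Ω ⊗[ℤ] A) : R22 V a b c x :=
  quad_eq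
    ((ev V x).comp (((trL V).flip b).flip c) +
      (((trL V).flip x).flip (V c b)).compQuadraticMap (ev V b))
    (ev V (V b (V c x)) + ((V c).comp (V b)).compQuadraticMap (ev V x) +
      LinearMap.BilinMap.toQuadraticMap
        (((trL V c).flip).compl₂ ((V b).comp (((trL V).flip x).flip c)))) h a

end

end Pool.Agent.HuaT31
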