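import Mathlib
import Pool.Agent.HuaT31.Lift

/-!
# The identities of quadratic Jordan algebras after scalar extension
-/

set_option autoImplicit false
set_option linter.unusedSimpArgs false

open scoped TensorProduct

namespace Pool.Agent.HuaT31

open QuadraticMap

section

variable {A : Type*} [AddCommGroup A] {U : QuadraticMap ℤ A (Module.End ℤ A)}
  {Ω : Type*} [CommRing Ω] {V : QuadraticMap Ω (Ω ⊗[ℤ] A) (Module.End Ω (Ω ⊗[ℤ] A))}
  (hV : ∀ (a c : A) (ω : Ω), V ((1 : Ω) ⊗ₜ[ℤ] a) (ω ⊗ₜ[ℤ] c) = ω ⊗ₜ[ℤ] (U a c))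

include hV

lemma tr_pure (a b c : A) : tr V ((1 : Ω) ⊗ₜ[ℤ] a) ((1 : Ω) ⊗ₜ[ℤ] b) ((1 : Ω) ⊗ₜ[ℤ] c) =
    (1 : Ω) ⊗ₜ[ℤ] (tr U a b c) := by
  rw [tr, tr, QuadraticMap.polar, QuadraticMap.polar, LinearMap.sub_apply, LinearMap.sub_apply,
    LinearMap.sub_apply, LinearMap.sub_apply, ← TensorProduct.tmul_add, hV, hV, hV,
    TensorProduct.tmul_sub, TensorProduct.tmul_sub]

lemma I_lift (h : Ing U) (a b c x : Ω ⊗[ℤ] A) :
    tr V a c (tr V b c x) = tr V a (V c b) x + tr V a (V c x) b := by
  refine I_step V a b x ?_ c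
  intro c₀
  induction a using ten_ind with
  | h1 a₀ =>
    induction b using ten_ind with
    | h1 b₀ =>
      induction x using ten_ind with
      | h1 x₀ =>
        simp only [tr_pure hV, hV, h.I, TensorProduct.tmul_add]
      | hs ω x hx => simp only [tr_smul1, tr_smul2, tr_smul3, map_smul, hx, smul_add]
      | ha x y hx hy =>
        simp only [tr_add1, tr_add2, tr_add3, map_add, hx, hy]
        abel
    | hs ω x hx => simp only [tr_smul1, tr_smul2, tr_smul3, map_smul, hx, smul_add]
    | ha x y hx hy =>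
      simp only [tr_add1, tr_add2, tr_add3, map_add, hx, hy]
      abel
  | hs ω x hx => simp only [tr_smul1, tr_smul2, tr_smul3, map_smul, hx, smul_add]
  | ha x y hx hy =>
    simp only [tr_add1, tr_add2, tr_add3, map_add, hx, hy]
    abel

lemma J4_lift (h : Ing U) (a b c x : Ω ⊗[ℤ] A) :
    tr V a b (tr V a c x) = tr V (V a b) c x + V a (tr V b x c) := by
  refine J4_step V b c x ?_ a
  intro a₀
  induction b using ten_ind with
  | h1 b₀ =>
    induction c using ten_ind with
    | h1 c₀ =>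
      induction x using ten_ind with
      | h1 x₀ =>
        simp only [tr_pure hV, hV, h.J4, TensorProduct.tmul_add]
      | hs ω x hx => simp only [tr_smul1, tr_smul2, tr_smul3, map_smul, hx, smul_add]
      | ha x y hx hy =>
        simp only [tr_add1, tr_add2, tr_add3, map_add, hx, hy]
        abel
    | hs ω x hx => simp only [tr_smul1, tr_smul2, tr_smul3, map_smul, hx, smul_add]
    | ha x y hx hy =>
      simp only [tr_add1, tr_add2, tr_add3, map_add, hx, hy]
      abel
  | hs ω x hx => simp only [tr_smul1, tr_smul2, tr_smul3, map_smul, hx, smul_add]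
  | ha x y hx hy =>
    simp only [tr_add1, tr_add2, tr_add3, map_add, hx, hy]
    abel

lemma E_lift (h : Ing U) (a c d x : Ω ⊗[ℤ] A) :
    tr V a c (V d x) + V d (tr V c a x) = tr V (tr V a c d) x d := by
  refine E_step V a c x ?_ d
  intro d₀
  induction a using ten_ind with
  | h1 a₀ =>
    induction c using ten_ind with
    | h1 c₀ =>
      induction x using ten_ind with
      | h1 x₀ =>
        simp only [tr_pure hV, hV, ← h.E, TensorProduct.tmul_add]
      | hs ω x hx => simp only [tr_smul1, tr_smul2, tr_smul3, map_smul, ← hx, smul_add]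
      | ha x y hx hy =>
        simp only [tr_add1, tr_add2, tr_add3, map_add, ← hx, ← hy]
        abel
    | hs ω x hx => simp only [tr_smul1, tr_smul2, tr_smul3, map_smul, ← hx, smul_add]
    | ha x y hx hy =>
      simp only [tr_add1, tr_add2, tr_add3, map_add, ← hx, ← hy]
      abel
  | hs ω x hx => simp only [tr_smul1, tr_smul2, tr_smul3, map_smul, ← hx, smul_add]
  | ha x y hx hy =>
    simp only [tr_add1, tr_add2, tr_add3, map_add, ← hx, ← hy]
    abel

lemma JP2_lift (h : Ing U) (u b v : Ω ⊗[ℤ] A) :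
    tr V (V u b) b v = tr V u (V b u) v := by
  rw [tr_comm V _ b v, tr_comm V u _ v]
  refine JP2_step_b V u v ?_ b
  intro b₀
  refine JP2_step_u V _ v ?_ u
  intro u₀
  induction v using ten_ind with
  | h1 v₀ =>
    have h1 := h.JP2 u₀ b₀ v₀
    rw [tr_comm, tr_comm U u₀] at h1
    simp only [tr_pure hV, hV, h1]
  | hs ω x hx => simp only [tr_smul1, hx]
  | ha x y hx hy => simp only [tr_add1, hx, hy]

lemma R22_lift (h : ∀ a b c x, U (tr U a b c) x + tr U (U a b) x (U c b) =
      U a (U b (U c x)) + U c (U b (U a x)) + tr U a (U b (tr U a x c)) c)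
    (a b c x : Ω ⊗[ℤ] A) : R22 V a b c x := by
  refine R22_step_a V b c x ?_ a
  intro a₀
  apply R22_symm
  refine R22_step_a V b _ x ?_ c
  intro c₀
  refine R22_step_b V _ _ x ?_ b
  intro b₀
  unfold R22
  induction x using ten_ind with
  | h1 x₀ =>
    simp only [tr_pure hV, hV, ← TensorProduct.tmul_add, h]
    rw [tr_comm U a₀ (U b₀ (tr U c₀ x₀ a₀)) c₀]
  | hs ω x hx =>
    rw [tr_smul2, tr_smul2, map_smul, map_smul, map_smul, map_smul, map_smul, map_smul,
      map_smul, map_smul, tr_smul2, ← smul_add, hx, smul_add, smul_add]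
  | ha x y hx hy =>
    simp only [tr_add2, map_add]
    linear_combination (norm := abel) hx + hy

/-- the Jordan identities after scalar extension -/
theorem strict_all (h : Ing U) (hQ : ∀ a b d, tr U a b (U a d) = U a (tr U b a d))
    (hF : ∀ a b x, U (U a b) x = U a (U b (U a x))) :
    (∀ a b d, tr V a b (V a d) = V a (tr V b a d)) ∧
    (∀ a b x, V (V a b) x = V a (V b (V a x))) := by
  have hI : Ing V := ⟨I_lift hV h, J4_lift hV h, JP2_lift hV h, E_lift hV h⟩
  have h22 := R22_lift hV (QJ3_22 h hQ hF)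
  have h2 : ∀ a b d, tr V a b (V a d) = V a (tr V b a d) := by
    intro a
    induction a using ten_ind with
    | h1 a₀ =>
      intro b d
      induction b using ten_ind with
      | h1 b₀ =>
        induction d using ten_ind with
        | h1 d₀ => simp only [tr_pure hV, hV, hQ]
        | hs ω x hx => simp only [tr_smul1, tr_smul2, tr_smul3, map_smul, hx]
        | ha x y hx hy => simp only [tr_add1, tr_add2, tr_add3, map_add, hx, hy]
      | hs ω x hx => simp only [tr_smul1, tr_smul2, tr_smul3, map_smul, hx]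
      | ha x y hx hy => simp only [tr_add1, tr_add2, tr_add3, map_add, hx, hy]
    | hs ω x hx =>
      intro b d
      rw [tr_smul1, U_smul, tr_smul3, hx, tr_smul2, map_smul, U_smul]
    | ha x y hx hy => exact QJ2_add hI x y hx hy
  refine ⟨h2, ?_⟩
  intro a
  induction a using ten_ind with
  | h1 a₀ =>
    intro b x
    refine quad_eq ((ev V x).comp (V ((1 : Ω) ⊗ₜ[ℤ] a₀)))
      ((V ((1 : Ω) ⊗ₜ[ℤ] a₀)).compQuadraticMap (ev V (V ((1 : Ω) ⊗ₜ[ℤ] a₀) x))) ?_ b
    intro b₀
    show V (V ((1 : Ω) ⊗ₜ[ℤ] a₀) ((1 : Ω) ⊗ₜ[ℤ] b₀)) x =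
      V ((1 : Ω) ⊗ₜ[ℤ] a₀) (V ((1 : Ω) ⊗ₜ[ℤ] b₀) (V ((1 : Ω) ⊗ₜ[ℤ] a₀) x))
    rw [hV]
    induction x using TensorProduct.induction_on with
    | zero => simp only [map_zero]
    | tmul ω x => simp only [hV, hF]
    | add x y hx hy => simp only [map_add, hx, hy]
  | hs ω a ha =>
    intro b x
    rw [U_smul, U_smul, U_smul, U_smul, ha, map_smul, map_smul]
    module
  | ha a c ha hc =>
    refine QJ3_add hI h2 ?_ a c ha hc
    intro a b c x
    have h3 := h22 a b c x
    unfold R22 at h3
    rw [h3, tr_comm V c]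

end

end Pool.Agent.HuaT31
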