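import Mathlib
import Pool.Agent.HuaVal.Jordan

/-!
# Hua systems with biadditive polar forms, in every characteristic: the symmetry of the unit
-/

set_option autoImplicit false

namespace Pool.Agent.HuaT31

open Pool.Agent.HuaVal

/-- an even map with vanishing third difference is quadratic -/
lemma exists_quad' {A M : Type*} [AddCommGroup A] [AddCommGroup M]
    (Q : A → M) (hneg : ∀ x, Q (-x) = Q x)
    (hadd : ∀ x y z, Q (x + y + z) - Q (x + y) - Q (x + z) - Q (y + z) + Q x + Q y + Q z = 0) :
    ∃ U : QuadraticMap ℤ A M, ∀ x, U x = Q x := by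
  have h0 : Q 0 = 0 := by
    have h := hadd 0 0 0
    simp only [add_zero] at h
    calc Q 0 = Q 0 - Q 0 - Q 0 - Q 0 + Q 0 + Q 0 + Q 0 := by abel
      _ = 0 := h
  have hl : ∀ x y z, Q (x + y + z) - Q (x + y) - Q z =
      (Q (x + z) - Q x - Q z) + (Q (y + z) - Q y - Q z) := by
    intro x y z
    have h := hadd x y z
    have h3 : Q (x + y + z) - Q (x + y) - Q z =
      (Q (x + z) - Q x - Q z) + (Q (y + z) - Q y - Q z) +
        (Q (x + y + z) - Q (x + y) - Q (x + z) - Q (y + z) + Q x + Q y + Q z) := by abel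
    rw [h3, h, add_zero]
  let P : A →+ A →+ M :=
    AddMonoidHom.mk' (fun x => AddMonoidHom.mk' (fun y => Q (x + y) - Q x - Q y) (by
      intro y z
      have h := hl y z x
      have e1 : x + (y + z) = y + z + x := by abel
      rw [e1, add_comm x y, add_comm x z]
      have e2 : Q (y + z + x) - Q x - Q (y + z) = Q (y + z + x) - Q (y + z) - Q x := by abel
      rw [e2, h]
      abel)) (by
      intro x y
      ext z
      simp only [AddMonoidHom.mk'_apply, AddMonoidHom.add_apply]
      exact hl x y z)
  have hP : ∀ x y, P x y = Q (x + y) - Q x - Q y := fun x y => rfl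
  have hPP : ∀ x, P x x = Q x + Q x := by
    intro x
    have h1 : P x (-x) = -P x x := map_neg _ _
    rw [hP, add_neg_cancel, h0, hneg] at h1
    have h3 : P x x = -(-P x x) := (neg_neg _).symm
    rw [h3, ← h1]
    abel
  let B : LinearMap.BilinMap ℤ A M :=
    (AddMonoidHom.mk' (fun x => (P x).toIntLinearMap) (by
      intro x y
      ext z
      simp only [map_add, AddMonoidHom.coe_toIntLinearMap, AddMonoidHom.add_apply,
        LinearMap.add_apply])).toIntLinearMap
  have hB : ∀ x y, B x y = P x y := fun x y => rfl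
  have hnat : ∀ (n : ℕ) (x : A), Q (n • x) = (n * n) • Q x := by
    intro n x
    induction n with
    | zero => simp [h0]
    | succ n ih =>
      have h3 : Q (n • x + x) = Q (n • x) + Q x + P (n • x) x := by
        rw [hP]
        abel
      rw [add_smul, one_smul, h3, ih, map_nsmul, AddMonoidHom.nsmul_apply, hPP]
      module
  refine ⟨⟨Q, ?_, ⟨B, ?_⟩⟩, fun x => rfl⟩
  · intro n x
    obtain ⟨m, rfl | rfl⟩ := n.eq_nat_or_neg
    · rw [natCast_zsmul, hnat]
      rw [← natCast_zsmul, Nat.cast_mul]
    · rw [neg_smul, hneg, natCast_zsmul, hnat, neg_mul_neg]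
      rw [← natCast_zsmul, Nat.cast_mul]
  · intro x y
    rw [hB, hP]
    abel

section

variable {A : Type*} [AddCommGroup A] {J : A → A → A} (hJ : JSys J)
  (hT : ∀ e, e ≠ 0 → ∀ x y z c, T3 J e x y z c = 0)

include hJ hT

/-- the quadratic map of Hua maps with respect to the base `e` -/
theorem exists_U' {e : A} (he : e ≠ 0) : ∃ U : QuadraticMap ℤ A (Module.End ℤ A),
    ∀ x y, U x y = H J e x y := by
  obtain ⟨U, hU⟩ := exists_quad' (M := Module.End ℤ A)
    (fun x => (Hm hJ he x).toIntLinearMap) (by
    intro x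
    ext y
    show H J e (-x) y = H J e x y
    exact H_neg hJ x y) (by
    intro x y z
    ext c
    have h := hT e he x y z c
    simpa [T3, Hm_apply] using h)
  refine ⟨U, fun x y => ?_⟩
  rw [hU]
  rfl

omit hT in
/-- the lemma on pairs `(q, w)` -/
lemma qw {e : A} (he : e ≠ 0) (q w : A →+ A →+ A)
    (hw : ∀ k x, k ≠ 0 → w k x = q (J e k) (H J e k x)) (m x : A) :
    q m x + w m x = q e (H J e (e + m) x - x - H J e m x) := by
  have he' : ∀ y, w e y = q e y := by
    intro y
    rw [hw e y he, hJ.self e he, H_self hJ he]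
  by_cases hm : m = 0
  · rw [hm, map_zero, map_zero, add_zero, H_zero_left, H_self hJ he, sub_self, sub_zero]
    simp
  by_cases hm1 : e + m = 0
  · have h1 : m = -e := by
      rw [add_comm] at hm1
      exact eq_neg_of_add_eq_zero_left hm1
    rw [hm1, H_zero_left, h1, map_neg, map_neg, H_neg hJ, H_self hJ he]
    simp only [AddMonoidHom.neg_apply, he', zero_sub, map_sub, map_neg]
    abel
  set k := J e m with hk
  have hk0 : k ≠ 0 := J_ne_zero hJ he hm
  have hkm : J e k = m := hJ.inv e m he
  have h2 : J e (e + k) = e - J e (e + m) := by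
    have h := i_sub_i hJ he he hm hm1
    rw [hJ.self e he, H_self hJ he] at h
    exact h.symm
  have hek : e + k ≠ 0 := by
    intro h
    rw [h, hJ.zero e he] at h2
    have h3 := (sub_eq_zero.mp h2.symm).symm
    have h4 := congrArg (J e) h3
    rw [hJ.inv e _ he, hJ.self e he] at h4
    exact hm (by simpa using h4)
  have h5 : H J e (e + k) (H J e m x) = H J e (e + m) x := by
    rw [add_comm e k, H_add_e' hJ he hk0, hkm, add_comm m e, hk, H_left_inv hJ he hm]
  have h6 : w (e + k) (H J e m x) = q (e - J e (e + m)) (H J e (e + m) x) := by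
    rw [hw _ _ hek, h5, h2]
  have h7 : w k (H J e m x) = q m x := by
    rw [hw _ _ hk0, hkm, hk, H_left_inv hJ he hm]
  have h8 : q (J e (e + m)) (H J e (e + m) x) = w (e + m) x := (hw _ _ hm1).symm
  rw [map_add, AddMonoidHom.add_apply, he', h7, map_sub, AddMonoidHom.sub_apply, h8, map_add,
    AddMonoidHom.add_apply, he'] at h6
  rw [map_sub, map_sub]
  have h9 : q m x = q e (H J e m x) + q m x - q e (H J e m x) := by abel
  rw [h9, h6]
  abel

end

end Pool.Agent.HuaT31
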