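import Mathlib
import Pool.Agent.HuaT31.Basic
import Pool.Agent.HuaVal.Lin

/-!
# Hua systems with biadditive polar forms, in every characteristic: the symmetry of the unit
-/

set_option autoImplicit false

namespace Pool.Agent.HuaT31

open Pool.Agent.HuaVal QuadraticMap

section

variable {A : Type*} [AddCommGroup A] {J : A → A → A} (hJ : JSys J)

include hJ

omit hJ in
lemma polar_eq {e : A} {U : QuadraticMap ℤ A (Module.End ℤ A)}
    (hU : ∀ x y, U x y = H J e x y) (x y c : A) :
    polar (⇑U) x y c = Pl J e x y c := by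
  rw [QuadraticMap.polar, LinearMap.sub_apply, LinearMap.sub_apply, hU, hU, hU, Pl]

/-- the value `U_{a, y⁻¹} y = 2 a` -/
lemma polar_inv {e : A} (he : e ≠ 0) {U : QuadraticMap ℤ A (Module.End ℤ A)}
    (hU : ∀ x y, U x y = H J e x y) (a y : A) (hy : y ≠ 0) :
    polar (⇑U) a (J e y) y = a + a := by
  rw [polar_eq hU, Pl, H_add_i hJ he a y hy]
  have h := H_inv_self hJ he (J e y)
  rw [hJ.inv e y he] at h
  rw [h]
  abel

/-- the two forms of `W` -/
lemma W_two {e : A} (he : e ≠ 0) {U : QuadraticMap ℤ A (Module.End ℤ A)}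
    (hU : ∀ x y, U x y = H J e x y) (y k x : A) (hk : k ≠ 0) :
    U y (polar (⇑U) (J e y) k x) = polar (⇑U) y (J e k) (U k x) := by
  by_cases hy : y = 0
  · rw [hy, map_zero, LinearMap.zero_apply, QuadraticMap.polar_zero_left, LinearMap.zero_apply]
  have h := Pl_inv hJ he hy (J_ne_zero hJ he hk) (U k x)
  rw [polar_eq hU, polar_eq hU, h, hJ.inv e k he, hU k x, H_left_inv hJ he hk, hU]

/-- the formula `(Q)` -/
lemma Q_formula {e : A} (he : e ≠ 0) {U : QuadraticMap ℤ A (Module.End ℤ A)}
    (hU : ∀ x y, U x y = H J e x y) (y m x : A) :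
    polar (⇑U) y m x + U y (polar (⇑U) (J e y) m x) =
      polar (⇑U) y e (polar (⇑U) e m x) := by
  let q : A →+ A →+ A :=
    AddMonoidHom.mk' (fun m => AddMonoidHom.mk' (fun x => polar (⇑U) y m x) (by
      intro x x'
      exact map_add _ _ _)) (by
      intro m m'
      ext x
      simp only [AddMonoidHom.mk'_apply, AddMonoidHom.add_apply]
      rw [QuadraticMap.polar_add_right, LinearMap.add_apply])
  let w : A →+ A →+ A :=
    AddMonoidHom.mk' (fun m => AddMonoidHom.mk' (fun x => U y (polar (⇑U) (J e y) m x)) (by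
      intro x x'
      rw [map_add, map_add])) (by
      intro m m'
      ext x
      simp only [AddMonoidHom.mk'_apply, AddMonoidHom.add_apply]
      rw [QuadraticMap.polar_add_right, LinearMap.add_apply, map_add])
  have hq : ∀ m x, q m x = polar (⇑U) y m x := fun m x => rfl
  have hw : ∀ m x, w m x = U y (polar (⇑U) (J e y) m x) := fun m x => rfl
  have h := qw hJ he q w (by
    intro k x hk
    rw [hw, hq, W_two hJ he hU y k x hk, hU k x]) m x
  rw [hq, hw, hq] at h
  rw [h]
  congr 1
  rw [QuadraticMap.polar, LinearMap.sub_apply, LinearMap.sub_apply, hU, hU, hU, H_self hJ he]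

/-- **the symmetry of the unit** -/
theorem symm_one' {e : A} (he : e ≠ 0) {U : QuadraticMap ℤ A (Module.End ℤ A)}
    (hU : ∀ x y, U x y = H J e x y) (a y : A) :
    polar (⇑U) a y e = polar (⇑U) e y a := by
  have hUe : ∀ x, U e x = x := by
    intro x
    rw [hU, H_self hJ he]
  have hself : ∀ u x, polar (⇑U) u u x = U u x + U u x := by
    intro u x
    rw [QuadraticMap.polar_self, two_smul, LinearMap.add_apply]
  -- `D(u; u, a) = 0`
  have hD : ∀ u b, U u (polar (⇑U) (J e u) b u) = polar (⇑U) u u b := by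
    intro u b
    by_cases hu : u = 0
    · rw [hu, map_zero, LinearMap.zero_apply, QuadraticMap.polar_zero_left,
        LinearMap.zero_apply]
    rw [QuadraticMap.polar_comm (⇑U) (J e u) b, polar_inv hJ he hU b u hu, map_add, hself]
  have hD' : ∀ u b, polar (⇑U) u b u + polar (⇑U) u u b =
      polar (⇑U) u e (polar (⇑U) e b u) := by
    intro u b
    rw [← hD u b]
    exact Q_formula hJ he hU u b u
  have e1 : ∀ x, polar (⇑U) x e e = x + x := by
    intro x
    have h := polar_inv hJ he hU x e he
    rwa [hJ.self e he] at h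
  have e2 : ∀ x, polar (⇑U) e x e = x + x := by
    intro x
    rw [QuadraticMap.polar_comm, e1]
  have e3 : ∀ x, polar (⇑U) e e x = x + x := by
    intro x
    rw [hself, hUe]
  have h1 := hD' (e + a) y
  have h2 := hD' e y
  have h3 := hD' a y
  simp only [QuadraticMap.polar_add_left, LinearMap.add_apply, map_add] at h1
  have h4 : polar (⇑U) e e (polar (⇑U) e y a) + polar (⇑U) a e (polar (⇑U) e y e) -
      polar (⇑U) e y a - polar (⇑U) a y e - polar (⇑U) e a y - polar (⇑U) a e y = 0 := by
    have h5 : polar (⇑U) e e (polar (⇑U) e y a) + polar (⇑U) a e (polar (⇑U) e y e) -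
      polar (⇑U) e y a - polar (⇑U) a y e - polar (⇑U) e a y - polar (⇑U) a e y =
      (polar (⇑U) e e (polar (⇑U) e y e) + polar (⇑U) a e (polar (⇑U) e y e) +
        (polar (⇑U) e e (polar (⇑U) e y a) + polar (⇑U) a e (polar (⇑U) e y a))) -
      (polar (⇑U) e e (polar (⇑U) e y e)) - (polar (⇑U) a e (polar (⇑U) e y a)) -
      polar (⇑U) e y a - polar (⇑U) a y e - polar (⇑U) e a y - polar (⇑U) a e y := by abel
    rw [h5, ← h1, ← h2, ← h3]
    simp only [QuadraticMap.polar_add_right, LinearMap.add_apply]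
    abel
  rw [e3, e2, map_add, QuadraticMap.polar_comm (⇑U) e a] at h4
  have h6 : polar (⇑U) e y a - polar (⇑U) a y e = 0 := by
    rw [← h4]
    abel
  exact (sub_eq_zero.mp h6).symm

end

end Pool.Agent.HuaT31
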