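import Mathlib
import Pool.Agent.HuaT31.Symm
import Pool.Agent.HuaT31.Strict

/-!
# Hua systems with biadditive polar forms, in every characteristic: the identities
-/

set_option autoImplicit false

namespace Pool.Agent.HuaT31

open Pool.Agent.HuaVal QuadraticMap

section

variable {A : Type*} [AddCommGroup A] {J : A → A → A} (hJ : JSys J)
  (hT : ∀ e, e ≠ 0 → ∀ x y z c, T3 J e x y z c = 0)

include hJ

/-- the fundamental formula -/
lemma fund {e : A} (he : e ≠ 0) {U : QuadraticMap ℤ A (Module.End ℤ A)}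
    (hU : ∀ x y, U x y = H J e x y) (a b x : A) : U (U a b) x = U a (U b (U a x)) := by
  simp only [hU]
  exact H_H' hJ he a b x

lemma fund_polar {e : A} (he : e ≠ 0) {U : QuadraticMap ℤ A (Module.End ℤ A)}
    (hU : ∀ x y, U x y = H J e x y) (a b c x : A) :
    tr U (U a b) x (U a c) = U a (tr U b (U a x) c) := by
  have h := fund hJ he hU a (b + c) x
  rw [map_add, U_add, fund hJ he hU, fund hJ he hU, U_add, map_add, map_add] at h
  exact add_left_cancel h

/-- change of the base -/
lemma change {e : A} (he : e ≠ 0) {U : QuadraticMap ℤ A (Module.End ℤ A)}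
    (hU : ∀ x y, U x y = H J e x y) {a : A} (ha : a ≠ 0)
    {W : QuadraticMap ℤ A (Module.End ℤ A)} (hW : ∀ x y, W x y = H J (J e a) x y) (x y : A) :
    W x y = U x (U a y) := by
  have h5 : J e (J (J e a) y) = U a y := by
    rw [hJ.comp e a y he ha, hJ.inv e _ he, hU, H_of_ne ha]
  rw [hW, ← H_change hJ he, h5, hU x]

lemma change_tr {e : A} (he : e ≠ 0) {U : QuadraticMap ℤ A (Module.End ℤ A)}
    (hU : ∀ x y, U x y = H J e x y) {a : A} (ha : a ≠ 0)
    {W : QuadraticMap ℤ A (Module.End ℤ A)} (hW : ∀ x y, W x y = H J (J e a) x y) (x y z : A) :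
    tr W x y z = tr U x (U a y) z := by
  rw [tr, tr, QuadraticMap.polar, QuadraticMap.polar, LinearMap.sub_apply, LinearMap.sub_apply,
    LinearMap.sub_apply, LinearMap.sub_apply, change hJ he hU ha hW, change hJ he hU ha hW,
    change hJ he hU ha hW]

lemma U_inv_self {e : A} (he : e ≠ 0) {U : QuadraticMap ℤ A (Module.End ℤ A)}
    (hU : ∀ x y, U x y = H J e x y) (a : A) : U a (J e a) = a := by
  rw [hU, H_inv_self hJ he]

lemma U_left_inv {e : A} (he : e ≠ 0) {U : QuadraticMap ℤ A (Module.End ℤ A)}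
    (hU : ∀ x y, U x y = H J e x y) {a : A} (ha : a ≠ 0) (y : A) : U (J e a) (U a y) = y := by
  rw [hU, hU, H_left_inv hJ he ha]

lemma U_right_inv {e : A} (he : e ≠ 0) {U : QuadraticMap ℤ A (Module.End ℤ A)}
    (hU : ∀ x y, U x y = H J e x y) {a : A} (ha : a ≠ 0) (y : A) : U a (U (J e a) y) = y := by
  rw [hU, hU, H_right_inv hJ he ha]

lemma U_unit {e : A} (he : e ≠ 0) {U : QuadraticMap ℤ A (Module.End ℤ A)}
    (hU : ∀ x y, U x y = H J e x y) (y : A) : U e y = y := by
  rw [hU, H_self hJ he]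

/-- the symmetry of the unit -/
lemma unit_symm {e : A} (he : e ≠ 0) {U : QuadraticMap ℤ A (Module.End ℤ A)}
    (hU : ∀ x y, U x y = H J e x y) (a y : A) : tr U e a y = tr U a e y :=
  (symm_one' hJ he hU a y).symm

include hT

/-- the symmetry `V = W` -/
lemma VW {e : A} (he : e ≠ 0) {U : QuadraticMap ℤ A (Module.End ℤ A)}
    (hU : ∀ x y, U x y = H J e x y) {a : A} (ha : a ≠ 0) (x y : A) :
    tr U x a y = tr U (J e a) (U a y) x := by
  have hw := J_ne_zero hJ he ha
  obtain ⟨W, hW⟩ := exists_U' hJ hT hw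
  have h := unit_symm hJ hw hW y x
  rw [change_tr hJ he hU ha hW, change_tr hJ he hU ha hW, U_inv_self hJ he hU] at h
  rw [tr_comm U x a y, ← h]

/-- `V_{a,b} U_a = U_a V_{b,a}` -/
lemma qj2 {e : A} (he : e ≠ 0) {U : QuadraticMap ℤ A (Module.End ℤ A)}
    (hU : ∀ x y, U x y = H J e x y) (a b d : A) :
    tr U a b (U a d) = U a (tr U b a d) := by
  by_cases ha : a = 0
  · rw [ha, U_zero, U_zero, tr_zero3]
  have h1 : tr U a b (U a d) = tr U (U a (J e a)) b (U a d) := by rw [U_inv_self hJ he hU]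
  rw [h1, fund_polar hJ he hU, tr_comm U b a d, VW hJ hT he hU ha d b]

/-- the unital form of `(Theta)` -/
lemma theta {e : A} (he : e ≠ 0) {U : QuadraticMap ℤ A (Module.End ℤ A)}
    (hU : ∀ x y, U x y = H J e x y) (y x m : A) :
    tr U y e (tr U x e m) = tr U y x m + tr U y m x := by
  by_cases hm : m = 0
  · rw [hm, tr_zero3, tr_zero3, tr_zero3, tr_zero2, add_zero]
  have h := Q_formula hJ he hU y m x
  rw [W_two hJ he hU y m x hm] at h
  have h1 : polar (⇑U) y (J e m) (U m x) = tr U y m x := by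
    rw [VW hJ hT he hU hm, QuadraticMap.polar_comm]
    rfl
  rw [h1] at h
  have h2 : polar (⇑U) e m x = tr U x e m := by
    have h3 := unit_symm hJ he hU x m
    exact h3
  have h4 : polar (⇑U) y e (tr U x e m) = tr U y e (tr U x e m) := by
    have h3 := unit_symm hJ he hU (tr U x e m) y
    rw [QuadraticMap.polar_comm]
    rw [tr_comm U y e]
    exact h3
  rw [h2, h4] at h
  exact h.symm

/-- the identity `(I)` -/
lemma id_I {e : A} (he : e ≠ 0) {U : QuadraticMap ℤ A (Module.End ℤ A)}
    (hU : ∀ x y, U x y = H J e x y) (a b c x : A) :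
    tr U a c (tr U b c x) = tr U a (U c b) x + tr U a (U c x) b := by
  by_cases hc : c = 0
  · rw [hc, tr_zero2, U_zero, U_zero, tr_zero2, tr_zero2, add_zero]
  have hw := J_ne_zero hJ he hc
  obtain ⟨W, hW⟩ := exists_U' hJ hT hw
  have h := theta hJ hT hw hW a b x
  simp only [change_tr hJ he hU hc hW, U_inv_self hJ he hU] at h
  exact h

/-- the identity `(J4)` -/
lemma id_J4 {e : A} (he : e ≠ 0) {U : QuadraticMap ℤ A (Module.End ℤ A)}
    (hU : ∀ x y, U x y = H J e x y) (a b c x : A) :
    tr U a b (tr U a c x) = tr U (U a b) c x + U a (tr U b x c) := by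
  by_cases ha : a = 0
  · rw [ha, tr_zero1, U_zero, U_zero, tr_zero1, add_zero]
  obtain ⟨y, rfl⟩ : ∃ y, U a y = x := ⟨_, U_right_inv hJ he hU ha x⟩
  rw [qj2 hJ hT he hU, qj2 hJ hT he hU, id_I hJ hT he hU, map_add, fund_polar hJ he hU]

/-- the unital form of `(JP2)` -/
lemma jp2_one {e : A} (he : e ≠ 0) {U : QuadraticMap ℤ A (Module.End ℤ A)}
    (hU : ∀ x y, U x y = H J e x y) (u v : A) :
    tr U (U u e) e v = tr U u u v := by
  by_cases h2 : ∀ a : A, a + a = 0 → a = 0
  · have h := theta hJ hT he hU v u u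
    have h1 : tr U u e u = U u e + U u e := by
      rw [tr, QuadraticMap.polar_self, two_smul, LinearMap.add_apply]
    rw [h1, tr_add3] at h
    rw [tr_comm U _ e v, tr_comm U u u v]
    have h3 : (tr U v e (U u e) - tr U v u u) + (tr U v e (U u e) - tr U v u u) = 0 := by
      have h4 : (tr U v e (U u e) - tr U v u u) + (tr U v e (U u e) - tr U v u u) =
        (tr U v e (U u e) + tr U v e (U u e)) - (tr U v u u + tr U v u u) := by abel
      rw [h4, h, sub_self]
    exact sub_eq_zero.mp (h2 _ h3)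
  · -- characteristic two
    push Not at h2
    obtain ⟨a, ha, ha0⟩ := h2
    have hd : ∀ y x, U (y + y) x = U y x + U y x + (U y x + U y x) := by
      intro y x
      rw [U_add]
      have h1 : tr U y x y = U y x + U y x := by
        rw [tr, QuadraticMap.polar_self, two_smul, LinearMap.add_apply]
      rw [h1]
    have h4 : ∀ x : A, x + x + (x + x) = 0 := by
      intro x
      obtain ⟨y, rfl⟩ : ∃ y, U a y = x := ⟨_, U_right_inv hJ he hU ha0 x⟩
      rw [← hd, ha, U_zero]
    have hz : ∀ x : A, x + x = 0 := by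
      intro x
      by_contra hx
      apply ha0
      have h5 : U (x + x) a = 0 := by rw [hd, h4]
      have h6 := U_left_inv hJ he hU hx a
      rw [h5, map_zero] at h6
      exact h6.symm
    by_cases hu : u = 0
    · rw [hu, U_zero, tr_zero1, tr_zero1]
    by_cases hue : u = e
    · rw [hue, U_unit hJ he hU]
    have hneg : ∀ x : A, -x = x := fun x => neg_eq_of_add_eq_zero_left (hz x)
    have hue' : e + u ≠ 0 := by
      intro h
      apply hue
      have h5 := eq_neg_of_add_eq_zero_right h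
      rw [h5, hneg]
    have hE : ∀ a y, y ≠ 0 → U (a + J e y) y = U a y + J e y := by
      intro a y hy
      rw [hU, H_add_i hJ he a y hy, hz, zero_add, hU]
    have h5 : u + J e u = U (e + u) (J e u) := by
      have h6 := hE e (J e u) (J_ne_zero hJ he hu)
      rw [hJ.inv e u he, U_unit hJ he hU] at h6
      rw [h6, add_comm]
    have h7 : ∀ z, U (J e u) (U (e + u) z) = U (e + u) (U (J e u) z) := by
      intro z
      have h8 := H_add_e hJ he (J_ne_zero hJ he hu) z
      have h9 := H_add_e' hJ he (J_ne_zero hJ he hu) z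
      rw [hJ.inv e u he] at h8 h9
      rw [add_comm e u, hU, hU, hU, hU, ← h8, ← h9]
    have h10 : tr U u u v = U (u + J e u) (U u v) - v - U u (U u v) := by
      rw [VW hJ hT he hU hu u v, U_add, tr_comm U u _ (J e u), U_left_inv hJ he hU hu]
      abel
    have h11 : U (u + J e u) (U u v) = U (e + u) (U (e + u) v) := by
      rw [h5, fund hJ he hU, h7 (U u v), U_left_inv hJ he hU hu]
    have h12 : U (e + u) (U (e + u) v) = U (U u e + e) v := by
      have h13 := hE u e he
      rw [hJ.self e he] at h13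
      rw [← h13, add_comm u e, fund hJ he hU, U_unit hJ he hU]
    rw [h10, h11, h12, U_add, U_unit hJ he hU, fund hJ he hU, U_unit hJ he hU]
    have h14 : tr U (U u e) v e = tr U (U u e) e v := by
      rw [tr_comm, unit_symm hJ he hU, tr_comm]
    rw [h14]
    abel

/-- the identity `(JP2)` -/
lemma id_JP2 {e : A} (he : e ≠ 0) {U : QuadraticMap ℤ A (Module.End ℤ A)}
    (hU : ∀ x y, U x y = H J e x y) (u b v : A) :
    tr U (U u b) b v = tr U u (U b u) v := by
  by_cases hb : b = 0
  · rw [hb, tr_zero2, U_zero, tr_zero2]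
  have hw := J_ne_zero hJ he hb
  obtain ⟨W, hW⟩ := exists_U' hJ hT hw
  have h := jp2_one hJ hT hw hW u v
  rw [change_tr hJ he hU hb hW, change_tr hJ he hU hb hW, change hJ he hU hb hW,
    U_inv_self hJ he hU] at h
  exact h

/-- the unital form of `(E)` -/
lemma e_one {e : A} (he : e ≠ 0) {U : QuadraticMap ℤ A (Module.End ℤ A)}
    (hU : ∀ x y, U x y = H J e x y) (a c x : A) :
    tr U a c x + tr U c a x = tr U (tr U a c e) x e := by
  have h1 : tr U (tr U a c e) x e = tr U x e (tr U a e c) := by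
    rw [tr_comm U a c e, unit_symm hJ he hU c a, tr_comm U c e a, tr_comm U _ x e,
      unit_symm hJ he hU]
  rw [h1, theta hJ hT he hU, tr_comm U x a c, tr_comm U x c a, add_comm]

/-- the identity `(E)` -/
lemma id_E {e : A} (he : e ≠ 0) {U : QuadraticMap ℤ A (Module.End ℤ A)}
    (hU : ∀ x y, U x y = H J e x y) (a c d x : A) :
    tr U a c (U d x) + U d (tr U c a x) = tr U (tr U a c d) x d := by
  by_cases hd : d = 0
  · rw [hd, U_zero, tr_zero3, U_zero, tr_zero3, add_zero]
  have hw := J_ne_zero hJ he hd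
  have hdd : J e (J e d) = d := hJ.inv e d he
  have hw' : J e (J e d) ≠ 0 := by rwa [hdd]
  obtain ⟨W, hW⟩ := exists_U' hJ hT hw'
  have h := e_one hJ hT hw' hW a (U d c) (U d x)
  rw [hdd] at h
  simp only [change_tr hJ he hU hw hW, U_left_inv hJ he hU hd] at h
  rw [fund_polar hJ he hU, U_right_inv hJ he hU hd] at h
  exact h

/-- all ingredients -/
theorem ing {e : A} (he : e ≠ 0) {U : QuadraticMap ℤ A (Module.End ℤ A)}
    (hU : ∀ x y, U x y = H J e x y) : Ing U :=
  ⟨id_I hJ hT he hU, id_J4 hJ hT he hU, id_JP2 hJ hT he hU, id_E hJ hT he hU⟩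

end

end Pool.Agent.HuaT31
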