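import Mathlib
import Pool.Agent.HuaT31.Ident
import Pool.Agent.HuaOne84.Defs

/-!
# Hua systems with biadditive polar forms come from quadratic Jordan division rings,
in every characteristic
-/

set_option autoImplicit false

open scoped TensorProduct

namespace Pool.Agent.HuaT31

open Pool.Agent.HuaVal Pool.Agent.HuaOne84 QuadraticMap

/-- **from the vanishing of the third differences to the quadratic Jordan division ring**, in every
characteristic -/
theorem jordan_of_T3_all {A : Type} [AddCommGroup A]
    (j : A → Option A → Option A) {J : A → A → A} (hJ : JSys J)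
    (hjJ : ∀ a b : A, a ≠ 0 → b ≠ 0 → j a (some b) = some (J a b))
    (hT : ∀ e, e ≠ 0 → ∀ x y z c, T3 J e x y z c = 0) {e : A} (he : e ≠ 0) :
    FromJordan j := by
  obtain ⟨U, hU⟩ := exists_U' hJ hT he
  have hI := ing hJ hT he hU
  have hQ := fun a b d => qj2 hJ hT he hU a b d
  have hF := fun a b x => fund hJ he hU a b x
  have hUe := U_unit hJ he hU
  have hbij : ∀ a : A, a ≠ 0 → Function.Bijective (U a) := by
    intro a ha
    refine Function.bijective_iff_has_inverse.mpr ⟨fun y => U (J e a) y, ?_, ?_⟩
    · exact fun y => U_left_inv hJ he hU ha y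
    · exact fun y => U_right_inv hJ he hU ha y
  refine ⟨e, U, ⟨?_, ?_, ?_⟩, ?_, hbij, ?_⟩
  · ext x
    rw [hUe, Module.End.one_apply]
  · intro a b c
    exact (hQ a b c).symm
  · intro a b
    ext x
    simp only [Module.End.mul_apply]
    exact hF a b x
  · intro Ω _ U' hU'
    obtain ⟨s2, s3⟩ := strict_all hU' hI hQ hF
    refine ⟨?_, ?_, ?_⟩
    · apply LinearMap.ext
      intro x
      rw [Module.End.one_apply]
      induction x using TensorProduct.induction_on with
      | zero => rw [map_zero]
      | tmul ω x => rw [hU', hUe]
      | add x y hx hy => rw [map_add, hx, hy]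
    · intro a b c
      exact (s2 a b c).symm
    · intro a b
      apply LinearMap.ext
      intro x
      rw [Module.End.mul_apply, Module.End.mul_apply]
      exact s3 a b x
  · intro a b c ha hb hc
    rw [hjJ a b ha hb]
    congr 1
    have h1 := U_inv_self hJ he hU b
    have h2' : c = J e b := (hbij b hb).1 (hc.trans h1.symm)
    rw [h2', hU, H_of_ne ha, hJ.inv e b he]

end Pool.Agent.HuaT31
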